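import Pool.Agent.H56.CX.Main

/-!
MP_2b6f50_lc (the `E₁` conjecture): equivalence relations which are reducible with a Cohen parameter to a
countable union of smooth Borel equivalence relations are themselves countable unions of smooth Borel
equivalence relations.
-/

namespace Pool.Agent.Results.MP_2b6f50_lc.CohenReductions

open Set Topology

/-- Let `X`, `Y` be standard Borel spaces, `P` a nonempty Polish space, `F` an equivalence relation on `X`,
and `E` the union of countably many smooth Borel equivalence relations on `Y`: `E y y'` iff `s k y = s k y'`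
for some `k`, where the `s k : Y → ℝ` are Borel. Let `ψ : X × P → Y` be a Borel map such that for
`F`-equivalent `x`, `x'` we have `E (ψ x q) (ψ x' q)` for comeager many `q`, and for inequivalent `x`, `x'`
we have not `E (ψ x q) (ψ x' q)` for comeager many `q`. Then there are Borel functions `r j : X → ℝ`
(`j : ℕ`) with `F x x'` iff `r j x = r j x'` for some `j`. -/
theorem result (X P Y : Type) [MeasurableSpace X] [StandardBorelSpace X] [TopologicalSpace P]
    [PolishSpace P] [Nonempty P] [MeasurableSpace P] [BorelSpace P] [MeasurableSpace Y]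
    [StandardBorelSpace Y] (F : Setoid X) (s : ℕ → Y → ℝ) (hs : ∀ k, Measurable (s k))
    (ψ : X → P → Y) (hψ : Measurable fun p : X × P => ψ p.1 p.2)
    (h1 : ∀ x x', F x x' → ∀ᶠ q in residual P, ∃ k, s k (ψ x q) = s k (ψ x' q))
    (h2 : ∀ x x', ¬ F x x' → ∀ᶠ q in residual P, ¬ ∃ k, s k (ψ x q) = s k (ψ x' q)) :
    ∃ r : ℕ → X → ℝ, (∀ j, Measurable (r j)) ∧ ∀ x x', F x x' ↔ ∃ j, r j x = r j x' :=
  Pool.Agent.H56.CX.main F s hs ψ hψ h1 h2

end Pool.Agent.Results.MP_2b6f50_lc.CohenReductions
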