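import Pool.Agent.H56.GJ.Fin

/-!
MP_2b6f50_lc (the `E₁` conjecture): Borel equivalence relations which are idealistic through ideals with
countable bases, for a generic parameter, are Borel reducible to a Polish group action.
-/

namespace Pool.Agent.Results.MP_2b6f50_lc.GenericIdeals

open Set Topology

/-- Let `F` be a Borel equivalence relation on a standard Borel space `X`, and `P` a nonempty Polish space.
For `x` in `X` and `q` in `P` let `J x q` be a σ-ideal of Borel subsets of `X` (`h1`, `h2`; only Borel members
matter) which does not contain the class of `x` (`h3`) and contains its complement (`h4`). Suppose that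

* `h5`: for every Borel set `A ⊆ (X × P) × X` the set of the `(x, q)` with the section of `A` at `(x, q)` in
  `J x q` is Borel;
* `h6`: there are Borel families of sets `H n x q` (`n : ℕ`) such that for all `x`, `q` and every Borel set
  `A` which is not in `J x q` there is an `n` with `H n x q` not in `J x q` and `H n x q \ A` in `J x q`;
* `h7`: for equivalent `x`, `x'` there are comeager many `q` such that the Borel members of `J x q` are in
  `J x' q`.

Then there are a Polish group `G`, a continuous action of `G` on a Polish space `Z` and a Borel map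
`f : X → Z` with `F x x'` iff `f x` and `f x'` lie in the same orbit. -/
theorem result (X P : Type) [MeasurableSpace X] [StandardBorelSpace X] [TopologicalSpace P]
    [PolishSpace P] [MeasurableSpace P] [BorelSpace P] [Nonempty P] (F : Setoid X)
    (hF : MeasurableSet {p : X × X | F p.1 p.2})
    (J : X → P → Set (Set X))
    (h1 : ∀ x q (A B : Set X), MeasurableSet A → MeasurableSet B → B ⊆ A → A ∈ J x q → B ∈ J x q)
    (h2 : ∀ x q (A : ℕ → Set X), (∀ n, MeasurableSet (A n)) → (∀ n, A n ∈ J x q) → (⋃ n, A n) ∈ J x q)
    (h3 : ∀ x q, {y | F x y} ∉ J x q) (h4 : ∀ x q, {y | ¬ F x y} ∈ J x q)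
    (h5 : ∀ A : Set ((X × P) × X), MeasurableSet A →
      MeasurableSet {r : X × P | {y | (r, y) ∈ A} ∈ J r.1 r.2})
    (H : ℕ → X → P → Set X) (hH : ∀ n, MeasurableSet {r : (X × P) × X | r.2 ∈ H n r.1.1 r.1.2})
    (h6 : ∀ x q (A : Set X), MeasurableSet A → A ∉ J x q →
      ∃ n, H n x q ∉ J x q ∧ H n x q \ A ∈ J x q)
    (h7 : ∀ x x', F x x' → ∀ᶠ q in residual P, ∀ A : Set X, MeasurableSet A → A ∈ J x q → A ∈ J x' q) :
    ∃ (G Z : Type) (_ : TopologicalSpace G) (_ : Group G) (_ : IsTopologicalGroup G)
      (_ : PolishSpace G) (_ : TopologicalSpace Z) (_ : PolishSpace Z) (_ : MeasurableSpace Z)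
      (_ : BorelSpace Z) (_ : MulAction G Z) (_ : ContinuousSMul G Z) (f : X → Z),
      Measurable f ∧ ∀ x x' : X, F x x' ↔ ∃ g : G, g • f x = f x' :=
  Pool.Agent.H56.GJ.main_gj X P F hF J h1 h2 h3 h4 h5 H hH h6 h7

end Pool.Agent.Results.MP_2b6f50_lc.GenericIdeals
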