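import Pool.Agent.H56.GS.Gen
import Pool.Agent.H56.GS.Sharp

/-!
MP_2b6f50_lc (the `E₁` conjecture): equivalence relations all of whose classes contain countable nonempty
sets which depend, generically in a parameter, on the class only: the parameter can be eliminated, and the
relation is Borel reducible to a Polish group action. Both hypotheses (comeager, inside the class) are needed.
-/

namespace Pool.Agent.Results.MP_2b6f50_lc.GenericSections

open Set

/-- (A) Let `F` be an equivalence relation on a standard Borel space `X`, `P` a nonempty Polish space and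
`f i : X × P → X` (`i : ℕ`) Borel functions with `f i x q` in the class of `x` for comeager many `q`.
Suppose that for all `F` equivalent `x`, `x'` the countable sets `{f i x q | i}` and `{f i x' q | i}`
are equal for comeager many `q` (the exceptional set may depend on `x`, `x'`). Then (1) there are Borel functions
`g m : X → X` (`m : ℕ`) with `g m x` in the class of `x` and `{g m x | m} = {g m x' | m}` for all
`F` equivalent `x`, `x'`, and (2) `F` is Borel reducible to the orbit equivalence relation of a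
continuous action of a Polish group `G` on a Polish space `Z`.
(B) For `E₁` there is a Borel `f` with parameter `q : ℕ`, with `f x q` in the class of `x` and
`f x q = f x' q` for all but finitely many `q` whenever `x E₁ x'`, but (1) fails for `E₁`.
(C) There is a Borel `ψ` such that `x E₁ y` implies `ψ x q E₀ ψ y q` for all `q`, and otherwise
`ψ x q`, `ψ y q` are not `E₀` equivalent for comeager many `q : ℕ → ℕ`. -/
theorem result :
    (∀ (X P : Type) [MeasurableSpace X] [StandardBorelSpace X] [TopologicalSpace P]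
      [PolishSpace P] [Nonempty P] [MeasurableSpace P] [BorelSpace P] (F : Setoid X)
      (f : ℕ → X → P → X), (∀ i, Measurable fun p : X × P => f i p.1 p.2) →
      (∀ i x, {q | F x (f i x q)} ∈ residual P) →
      (∀ x x', F x x' →
        {q | range (fun i => f i x q) = range (fun i => f i x' q)} ∈ residual P) →
      (∃ g : ℕ → X → X, (∀ m, Measurable (g m)) ∧ (∀ m x, F x (g m x)) ∧
        ∀ x x', F x x' → range (fun m => g m x) = range (fun m => g m x')) ∧
      ∃ (G Z : Type) (_ : TopologicalSpace G) (_ : Group G) (_ : IsTopologicalGroup G)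
        (_ : PolishSpace G) (_ : TopologicalSpace Z) (_ : PolishSpace Z) (_ : MeasurableSpace Z)
        (_ : BorelSpace Z) (_ : MulAction G Z) (_ : ContinuousSMul G Z) (h : X → Z),
        Measurable h ∧ ∀ x x' : X, F x x' ↔ ∃ g : G, g • h x = h x') ∧
    ((∃ f : (ℕ → ℕ → Bool) → ℕ → (ℕ → ℕ → Bool),
      (Measurable fun p : (ℕ → ℕ → Bool) × ℕ => f p.1 p.2) ∧
      (∀ x q, ∃ k, ∀ n, k ≤ n → x n = f x q n) ∧
      ∀ x x', (∃ k, ∀ n, k ≤ n → x n = x' n) → {q | f x q = f x' q}ᶜ.Finite) ∧
    ¬ ∃ g : ℕ → (ℕ → ℕ → Bool) → (ℕ → ℕ → Bool), (∀ m, Measurable (g m)) ∧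
      (∀ m x, ∃ k, ∀ n, k ≤ n → x n = g m x n) ∧
      ∀ x x', (∃ k, ∀ n, k ≤ n → x n = x' n) →
        range (fun m => g m x) = range (fun m => g m x')) ∧
    ∃ ψ : (ℕ → ℕ → Bool) → (ℕ → ℕ) → (ℕ → Bool),
      (Measurable fun p : (ℕ → ℕ → Bool) × (ℕ → ℕ) => ψ p.1 p.2) ∧
      (∀ x y, (∃ k, ∀ n, k ≤ n → x n = y n) → ∀ q, ∃ k, ∀ n, k ≤ n → ψ x q n = ψ y q n) ∧
      ∀ x y, (¬ ∃ k, ∀ n, k ≤ n → x n = y n) →
        {q | ¬ ∃ k, ∀ n, k ≤ n → ψ x q n = ψ y q n} ∈ residual (ℕ → ℕ) :=
  ⟨fun _ _ _ _ _ _ _ _ _ F f hf hF hinv => by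
      obtain ⟨f', hf', hF', hinv'⟩ := Pool.Agent.H56.GS.gen F f hf hF hinv
      exact ⟨Pool.Agent.H56.GS.elim F f' hf' hF' hinv', (Pool.Agent.H56.GS.main_gs F f' hf' hF' hinv').2⟩,
    ⟨Pool.Agent.H56.GS.e1_cofinite, Pool.Agent.H56.GS.e1_no_sections⟩,
    Pool.Agent.H56.GS.e1_cohen_e0⟩

end Pool.Agent.Results.MP_2b6f50_lc.GenericSections
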